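import Pool.Agent.Work.MP_7cb3ca_co.Cu.Morph

/-! Circular square-free words and tests for them. -/

namespace Pool.Agent.Work.MP_7cb3ca_co.Cu

open List

variable {α β : Type}

/-- All rotations of the word are square-free. -/
def CSF (w : List α) : Prop := ∀ s, SF (w.rotate s)

lemma SF.nil : SF ([] : List α) := fun A X C e => by
  simp only [nil_eq, append_eq_nil_iff] at e
  exact e.2.1

lemma Test.csf {h : α → List β} (T : Test h) [Nontrivial α] {c : List α}
    (hc : ∀ w1 a w2, c = w1 ++ a :: w2 → SF (a :: (w2 ++ (w1 ++ [a])))) : CSF (c.flatMap h) := by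
  intro s
  by_cases h0 : c.flatMap h = []
  · rw [h0, rotate_nil]
    exact SF.nil
  have h1 := Nat.mod_lt s (length_pos_iff.2 h0)
  rw [rotate_eq_drop_append_take_mod]
  obtain ⟨w1, a, w2, P, Q, e, ha, -, e1, e2⟩ := cut h c _ _
    (take_append_drop (s % (c.flatMap h).length) _).symm (by simpa using h1)
  rw [e1, e2]
  exact (T.sf (hc w1 a w2 e)).sub ⟨P, Q, by simp [ha]⟩

lemma SF.mid [DecidableEq α] {u v : List α} {t : α} (hu : SF u) (hv : SF v) (h1 : t ∉ u)
    (h2 : t ∉ v) : SF (u ++ t :: v) := by
  intro A X C e
  have hX : t ∉ X := fun h => by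
    have h3 := congrArg (count t) e
    have h4 := count_pos_iff.2 h
    simp only [count_append, count_cons_self, count_eq_zero_of_not_mem h1,
      count_eq_zero_of_not_mem h2] at h3
    omega
  rcases append_eq_append_iff.1 e with ⟨D, -, e2⟩ | ⟨D, rfl, e2⟩
  · cases D with
    | nil =>
      cases X with
      | nil => rfl
      | cons x X => simp at e2 hX; exact absurd e2.1 hX.1
    | cons d D => simp only [cons_append, cons.injEq] at e2; exact hv D X C e2.2
  · rw [← append_assoc] at e2
    rcases append_eq_append_iff.1 e2 with ⟨E, rfl, -⟩ | ⟨E, e3, e4⟩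
    · exact hu A X E (by simp)
    · cases E with
      | nil => exact hu A X [] (by simp at e3 ⊢; exact e3.symm)
      | cons x E =>
        simp only [cons_append, cons.injEq] at e4
        have : t ∈ X ++ X := by rw [e3, e4.1]; simp
        simp [hX] at this

lemma SF.ends [DecidableEq α] {u : List α} {t : α} (hu : SF u) (h0 : u ≠ []) (h1 : t ∉ u) :
    SF (t :: (u ++ [t])) := by
  intro A X C e
  cases A with
  | cons a A =>
    simp only [cons_append, cons.injEq] at e
    exact hu.mid SF.nil h1 (by simp) A X C e.2
  | nil =>
    rcases eq_nil_or_concat C with rfl | ⟨C, c, rfl⟩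
    · cases X with
      | nil => rfl
      | cons x X =>
        exfalso
        simp only [nil_append, cons_append, append_nil, cons.injEq] at e
        obtain ⟨rfl, e⟩ := e
        rcases eq_nil_or_concat X with rfl | ⟨X, y, rfl⟩
        · exact h0 (by simpa using e)
        · have h3 := congrArg (count t) e
          have h4 : u ++ [t] = (X ++ y :: t :: X) ++ [y] := by simpa using e
          obtain rfl : t = y := by simpa using (append_inj' h4 rfl).2
          simp [count_eq_zero_of_not_mem h1] at h3
          omega
    · refine SF.mid SF.nil hu (by simp) h1 [] X C ?_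
      have : (t :: u) ++ [t] = (X ++ (X ++ C)) ++ [c] := by simpa using e
      simpa using (append_inj' this rfl).1

lemma SF.circ [DecidableEq α] {u : List α} {t : α} (hu : SF u) (h0 : u ≠ []) (h1 : t ∉ u) :
    ∀ w1 a w2, u ++ [t] = w1 ++ a :: w2 → SF (a :: (w2 ++ (w1 ++ [a]))) := by
  intro w1 a w2 e
  rcases eq_nil_or_concat w2 with rfl | ⟨w2, y, rfl⟩
  · obtain ⟨rfl, e2⟩ := append_inj' e rfl
    obtain rfl : t = a := by simpa using e2
    exact hu.ends h0 h1
  · have : u ++ [t] = (w1 ++ a :: w2) ++ [y] := by simpa using e
    obtain ⟨rfl, e2⟩ := append_inj' this rfl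
    obtain rfl : t = y := by simpa using e2
    simp only [mem_append, mem_cons, not_or] at h1
    have := SF.mid (u := a :: w2) (v := w1 ++ [a]) (t := t) (hu.sub ⟨w1, [], by simp⟩)
      (hu.sub ⟨[], w2, by simp⟩) (by simp [h1]) (by simp [h1])
    simpa using this

/-- The first `m` letters of two words exist and agree. -/
noncomputable def agree (s : List ℕ) : List ℕ → ℕ → Bool :=
  List.rec (motive := fun _ => List ℕ → ℕ → Bool) (fun _ m => Nat.beq m 0)
    (fun a _ ih t m => Nat.rec (motive := fun _ => Bool) true (fun m _ =>
      List.rec (motive := fun _ => Bool) false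
        (fun b t _ => Bool.rec false (ih t m) (Nat.beq a b)) t) m) s

/-- No square at the start of `t` with period `m` or more; `d` is `t` without `m` letters. -/
noncomputable def noSq (t d : List ℕ) : ℕ → Bool :=
  List.rec (motive := fun _ => ℕ → Bool) (fun _ => true)
    (fun b d ih m => Bool.rec (Nat.rec (motive := fun _ => Bool) false (fun k _ => ih k)
      (Nat.add m (nat_lit 2))) false (agree t (b :: d) m)) d

/-- The test for square-free words. -/
noncomputable def sfb (w : List ℕ) : Bool :=
  List.rec (motive := fun _ => Bool) true (fun a t ih => Bool.rec false ih (noSq (a :: t) t 1)) w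

/-- `k w`, with the word `w` evaluated first. -/
noncomputable def force (w : List ℕ) : (List ℕ → Bool) → Bool :=
  List.rec (motive := fun _ => (List ℕ → Bool) → Bool) (fun k => k [])
    (fun a _ ih k => Nat.rec (motive := fun _ => Bool) false (fun b _ => ih fun t => k (b :: t))
      (Nat.add a (nat_lit 1))) w

lemma force_eq (w : List ℕ) (k : List ℕ → Bool) : force w k = k w := by
  induction w generalizing k with
  | nil => rfl
  | cons a w ih => exact ih fun t => k (a :: t)

lemma agree_zero (s t : List ℕ) : agree s t 0 = true := by cases s <;> rfl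

lemma agree_cons (a b : ℕ) (s t : List ℕ) (m : ℕ) :
    agree (a :: s) (b :: t) (m + 1) = (decide (a = b) && agree s t m) := by
  change Bool.rec (motive := fun _ => Bool) false (agree s t m) (Nat.beq a b) = _
  by_cases h : a = b
  · simp [h]
  · rw [show Nat.beq a b = false from Bool.eq_false_iff.2 fun e => h (Nat.eq_of_beq_eq_true e)]
    simp [h]

lemma noSq_cons (t d : List ℕ) (b m : ℕ) :
    noSq t (b :: d) m = (!(agree t (b :: d) m) && noSq t d (m + 1)) := by
  change Bool.rec (motive := fun _ => Bool) (noSq t d (m + 1)) false (agree t (b :: d) m) = _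
  cases agree t (b :: d) m <;> simp

lemma sfb_cons (a : ℕ) (t : List ℕ) : sfb (a :: t) = (noSq (a :: t) t 1 && sfb t) := by
  change Bool.rec (motive := fun _ => Bool) false (sfb t) (noSq (a :: t) t 1) = _
  cases noSq (a :: t) t 1 <;> simp

lemma agree_iff : ∀ (m : ℕ) (s t : List ℕ), agree s t m = true ↔
    ∃ X Y Z, X.length = m ∧ s = X ++ Y ∧ t = X ++ Z := by
  intro m
  induction m with
  | zero => intro s t; simp [agree_zero]
  | succ m ih =>
    intro s t
    constructor
    · intro h
      match s, t with
      | [], _ => exact absurd h (by simp [agree])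
      | _ :: _, [] => exact absurd h (by simp [agree])
      | a :: s, b :: t =>
        simp only [agree_cons, Bool.and_eq_true, decide_eq_true_eq] at h
        obtain ⟨X, Y, Z, h1, h2, h3⟩ := (ih s t).1 h.2
        exact ⟨a :: X, Y, Z, by simp [h1], by simp [h2], by simp [h3, h.1]⟩
    · rintro ⟨X, Y, Z, h1, rfl, rfl⟩
      cases X with
      | nil => simp at h1
      | cons x X =>
        simp only [cons_append, agree_cons, decide_true, Bool.true_and]
        exact (ih _ _).2 ⟨X, Y, Z, by simpa using h1, rfl, rfl⟩

lemma noSq_iff (t : List ℕ) : ∀ (d : List ℕ) (m : ℕ), noSq t d m = true ↔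
    ∀ D C, d = D ++ C → C ≠ [] → agree t C (m + D.length) = false := by
  intro d
  induction d with
  | nil => intro m; simp [noSq]
  | cons b d ih =>
    intro m
    simp only [noSq_cons, Bool.and_eq_true, Bool.not_eq_true', ih]
    constructor
    · rintro ⟨h1, h2⟩ D C e hC
      cases D with
      | nil => simp only [nil_append] at e; subst e; simpa using h1
      | cons x D =>
        simp only [cons_append, cons.injEq] at e
        have := h2 D C e.2 hC
        rwa [length_cons, ← add_assoc, add_right_comm]
    · intro h
      refine ⟨by simpa using h [] _ rfl (by simp), fun D C e hC => ?_⟩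
      have := h (b :: D) C (by simp [e]) hC
      rwa [length_cons, ← add_assoc, add_right_comm] at this

lemma noSq_one (w : List ℕ) : noSq w w.tail 1 = true ↔ ∀ X C, w = X ++ (X ++ C) → X = [] := by
  cases w with
  | nil => simp [noSq]
  | cons a t =>
    rw [tail_cons, noSq_iff]
    constructor
    · intro h1 X C e
      cases X with
      | nil => rfl
      | cons x X =>
        exfalso
        have h3 := h1 X (x :: X ++ C) (by simp at e; simp [e.2]) (by simp)
        rw [(agree_iff _ _ _).2 ⟨x :: X, x :: X ++ C, C, by simp [add_comm], e, rfl⟩] at h3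
        exact absurd h3 (by simp)
    · intro h D C e hC
      by_contra h1
      obtain ⟨X, Y, Z, h2, h3, h4⟩ := (agree_iff _ _ _).1 (by simpa using h1)
      have h5 : (a :: D) ++ C = X ++ Y := by rw [← h3, e]; rfl
      obtain ⟨rfl, -⟩ := append_inj h5 (by simp [h2, add_comm])
      simpa using h (a :: D) Z (by simp [e, h4])

lemma sfb_iff : ∀ w : List ℕ, sfb w = true ↔ SF w := by
  intro w
  induction w with
  | nil => simp [sfb, SF.nil]
  | cons a t ih =>
    have := noSq_one (a :: t)
    rw [tail_cons] at this
    rw [sfb_cons, Bool.and_eq_true, ih, this]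
    refine ⟨fun ⟨h1, h2⟩ A X C e => ?_, fun h => ⟨h [], h.sub ⟨[a], [], by simp⟩⟩⟩
    cases A with
    | cons b A => simp only [cons_append, cons.injEq] at e; exact h2 A X C e.2
    | nil => exact h1 X C e

lemma csf_iff_start {w : List α} :
    CSF w ↔ ∀ s X C, w.rotate s = X ++ (X ++ C) → X = [] := by
  refine ⟨fun h s => h s [], fun h s A X C e => h (s + A.length) X (C ++ A) ?_⟩
  rw [← rotate_rotate, e, rotate_append_length_eq]
  simp

lemma csf_iff {w : List ℕ} (h0 : w ≠ []) :
    CSF w ↔ ∀ s < w.length, force (w.rotate s) (fun r => noSq r r.tail 1) = true := by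
  simp only [force_eq, noSq_one, csf_iff_start]
  refine ⟨fun h s _ => h s, fun h s => ?_⟩
  rw [← rotate_mod]
  exact h _ (Nat.mod_lt _ (length_pos_iff.2 h0))

lemma SF.of_map {w : List α} (g : α → β) (h : SF (w.map g)) : SF w := by
  rintro A X C rfl
  simpa using h (A.map g) (X.map g) (C.map g) (by simp)

end Pool.Agent.Work.MP_7cb3ca_co.Cu
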