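import Mathlib.Tactic
import Mathlib.Data.List.Infix
import Mathlib.Data.List.Rotate

/-! Square-free words and the test of Bean, Ehrenfeucht and McNulty for square-free morphisms. -/

namespace Pool.Agent.Work.MP_7cb3ca_co.Cu

open List

variable {α β : Type}

/-- The word has no factor `X X` with `X` nonempty. -/
def SF (w : List α) : Prop := ∀ A X C : List α, w = A ++ (X ++ (X ++ C)) → X = []

lemma SF.sub {w v : List α} (h : SF w) (hv : v <:+: w) : SF v := by
  obtain ⟨s, t, rfl⟩ := hv
  rintro A X C rfl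
  exact h (s ++ A) X (C ++ t) (by simp)

lemma SF.ne {u v : List α} {a b : α} (h : SF (u ++ a :: b :: v)) : a ≠ b := by
  rintro rfl
  simpa using h u [a] v (by simp)

lemma cut (h : α → List β) : ∀ (w : List α) (U V : List β), w.flatMap h = U ++ V → V ≠ [] →
    ∃ w1 a w2 P Q, w = w1 ++ a :: w2 ∧ h a = P ++ Q ∧ Q ≠ [] ∧ U = w1.flatMap h ++ P ∧
      V = Q ++ w2.flatMap h := by
  intro w
  induction w with
  | nil => intro U V e hV; simp at e; exact absurd e.2 hV
  | cons a w ih =>
    intro U V e hV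
    rw [flatMap_cons] at e
    rcases append_eq_append_iff.1 e with ⟨D, e1, e2⟩ | ⟨D, e1, e2⟩
    · obtain ⟨w1, b, w2, P, Q, f1, f2, f3, f4, f5⟩ := ih D V e2 hV
      exact ⟨a :: w1, b, w2, P, Q, by simp [f1], f2, f3, by simp [e1, f4], f5⟩
    · by_cases hD : D = []
      · subst hD
        obtain ⟨w1, b, w2, P, Q, f1, f2, f3, f4, f5⟩ := ih [] V (by simpa using e2.symm) hV
        refine ⟨a :: w1, b, w2, P, Q, by simp [f1], f2, f3, ?_, f5⟩
        simp only [append_nil] at e1
        rw [flatMap_cons, append_assoc, ← f4, e1, append_nil]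
      · exact ⟨[], a, w, U, D, rfl, e1, hD, by simp, e2⟩

/-- The hypotheses of the test. -/
structure Test (h : α → List β) : Prop where
  ne : ∀ a, h a ≠ []
  inf : ∀ a b, h a <:+: h b → a = b
  three : ∀ a b c, a ≠ b → b ≠ c → SF (h a ++ (h b ++ h c))

namespace Test

variable {h : α → List β} (T : Test h)
include T

lemma two {a b : α} (hab : a ≠ b) : SF (h a ++ h b) :=
  (T.three a b a hab hab.symm).sub ⟨[], h a, by simp⟩

omit T in
lemma head {w : List α} {D E : List β} (hD : D ≠ []) (e : D ++ E = w.flatMap h) :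
    ∃ c w', w = c :: w' ∧ D ++ E = h c ++ w'.flatMap h := by
  cases w with
  | nil => simp [hD] at e
  | cons c w' => exact ⟨c, w', rfl, by simpa using e⟩

/-- A proper factor of an image does not contain an image. -/
lemma small {a b : α} {P D Q : List β} (e : h a = P ++ (h b ++ D ++ Q)) : b = a ∧ P = [] ∧ D = [] ∧
    Q = [] := by
  have := T.inf b a ⟨P, D ++ Q, by simp [e]⟩
  subst this
  have := congrArg length e
  simp only [length_append] at this
  refine ⟨rfl, ?_, ?_, ?_⟩ <;> apply length_eq_zero_iff.1 <;> omega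

lemma code : ∀ (u w : List α) (C : List β), u.flatMap h ++ C = w.flatMap h →
    ∃ w', w = u ++ w' ∧ C = w'.flatMap h := by
  intro u
  induction u with
  | nil => intro w C e; exact ⟨w, rfl, by simpa using e⟩
  | cons a u ih =>
    intro w C e
    rw [flatMap_cons, append_assoc] at e
    obtain ⟨c, w', rfl, e'⟩ := head (T.ne a) e
    have hac : a = c := by
      rcases append_eq_append_iff.1 e' with ⟨D, e1, -⟩ | ⟨D, e1, -⟩
      · exact T.inf _ _ ⟨[], D, by simp [e1]⟩
      · exact (T.inf _ _ ⟨[], D, by simp [e1]⟩).symm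
    subst hac
    obtain ⟨w'', f1, f2⟩ := ih w' C (append_cancel_left e')
    exact ⟨w'', by simp [f1], f2⟩

lemma one [Nontrivial α] (a : α) : SF (h a) := by
  obtain ⟨b, hb⟩ := exists_ne a
  exact (T.two hb.symm).sub ⟨[], h b, by simp⟩

lemma long {a b : α} {u w : List α} {P Q B D C : List β} (hw : SF (a :: (u ++ b :: w)))
    (ha : h a = P ++ Q) (hQ : Q ≠ []) (hb : h b = B ++ (Q ++ D)) (hD : D ≠ [])
    (e : u.flatMap h ++ (B ++ C) = D ++ w.flatMap h) : False := by
  have hbw : ∀ c w', w = c :: w' → b ≠ c := fun c w' e => by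
    subst e; exact SF.ne (u := a :: u) hw
  cases u with
  | nil =>
    have hab : a ≠ b := SF.ne (u := []) hw
    simp only [flatMap_nil, nil_append] at e
    rcases append_eq_append_iff.1 e with ⟨E, rfl, -⟩ | ⟨E, rfl, e2⟩
    · simpa [hQ] using T.two hab P (Q ++ B) E (by simp [ha, hb])
    · by_cases hE : E = []
      · subst hE
        simpa [hQ] using T.two hab P (Q ++ D) [] (by simp [ha, hb])
      obtain ⟨c, w', f1, f2⟩ := head hE e2.symm
      rcases append_eq_append_iff.1 f2 with ⟨F, f3, -⟩ | ⟨F, rfl, -⟩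
      · simpa [hQ] using T.three a b c hab (hbw c w' f1) P (Q ++ (D ++ E)) F (by simp [ha, hb, f3])
      · exact hbw c w' f1 (T.inf c b ⟨D, F ++ (Q ++ D), by simp [hb]⟩).symm
  | cons x u =>
    rw [flatMap_cons, append_assoc] at e
    rcases append_eq_append_iff.1 e with ⟨E, rfl, -⟩ | ⟨E, f1, e2⟩
    · exact hQ (by simpa using (T.small (a := b) (b := x) (P := B ++ Q) (D := E) (Q := [])
        (by simp [hb])).2.1 |> fun t => (append_eq_nil_iff.1 t).2)
    · have hbx : b = x := by
        by_contra hbx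
        exact hD (T.two hbx (B ++ Q) D E (by simp [hb, f1]))
      subst hbx
      have hE : E ≠ [] := by
        rintro rfl
        have := congrArg length (hb.symm.trans f1)
        have := length_pos_iff.2 hQ
        simp only [length_append, length_nil] at *
        omega
      obtain ⟨c, w', f2, f3⟩ := head hE e2.symm
      rcases append_eq_append_iff.1 f3 with ⟨F, f4, -⟩ | ⟨F, rfl, -⟩
      · exact hE (T.two (hbw c w' f2) D E F (by simp [f1, f4]))
      · exact hbw c w' f2 (T.inf c b ⟨D, F, by simp [f1]⟩).symm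

lemma short {a b : α} {u w : List α} {P Q B D C : List β} (hw : SF (a :: (u ++ b :: w)))
    (ha : h a = P ++ (Q ++ D)) (hQ : Q ≠ []) (hb : h b = B ++ Q) (hD : D ≠ [])
    (e : D ++ (u.flatMap h ++ (B ++ C)) = w.flatMap h) : False := by
  obtain ⟨c, w', rfl, f2⟩ := head hD e
  have hbc : b ≠ c := SF.ne (u := a :: u) hw
  rcases append_eq_append_iff.1 f2 with ⟨E, f3, f4⟩ | ⟨E, rfl, -⟩
  swap
  · exact hQ (by simpa using (T.small (a := a) (b := c) (P := P ++ Q) (D := E) (Q := [])
      (by simp [ha])).2.1 |> fun t => (append_eq_nil_iff.1 t).2)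
  have hac : a = c := by
    by_contra hac
    exact hD (T.two hac (P ++ Q) D E (by simp [ha, f3]))
  subst hac
  have hE : E ≠ [] := by
    rintro rfl
    have := congrArg length (ha.symm.trans f3)
    have := length_pos_iff.2 hQ
    simp only [length_append, length_nil] at *
    omega
  cases u with
  | nil =>
    simp only [flatMap_nil, nil_append] at f4
    rcases append_eq_append_iff.1 f4 with ⟨F, rfl, -⟩ | ⟨F, rfl, -⟩
    · have := T.three a b a hbc.symm hbc P (Q ++ (D ++ B)) F (by
        nth_rewrite 1 [ha]; simp [hb, f3])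
      simp [hQ] at this
    · exact hE (T.two hbc.symm D E (F ++ Q) (by simp [hb, f3]))
  | cons x u =>
    have hax : a ≠ x := SF.ne (u := []) hw
    rw [flatMap_cons, append_assoc] at f4
    rcases append_eq_append_iff.1 f4 with ⟨F, rfl, -⟩ | ⟨F, f5, -⟩
    · exact hax (T.inf x a ⟨D, F, by simp [f3]⟩).symm
    · exact hE (T.two hax D E F (by simp [f3, f5]))

lemma even {a b : α} {u w : List α} {P Q B C : List β} (hw : SF (a :: (u ++ b :: w)))
    (ha : h a = P ++ Q) (hQ : Q ≠ []) (hb : h b = B ++ Q)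
    (e : u.flatMap h ++ (B ++ C) = w.flatMap h) : False := by
  obtain ⟨w', rfl, f1⟩ := T.code u w _ e
  have hab : a ≠ b := by
    rintro rfl
    simpa using hw [] (a :: u) w' (by simp)
  by_cases hB : B = []
  · subst hB
    exact hab (T.inf b a ⟨P, [], by simp [ha, hb]⟩).symm
  obtain ⟨c, w'', rfl, f2⟩ := head hB f1
  have hbc : b ≠ c := by
    rintro rfl
    simpa using hw [a] (u ++ [b]) w'' (by simp)
  rcases append_eq_append_iff.1 f2 with ⟨F, f3, -⟩ | ⟨F, rfl, -⟩
  · simpa [hQ] using T.three a b c hab hbc P (Q ++ B) F (by simp [ha, hb, f3])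
  · exact hbc (T.inf c b ⟨[], F ++ Q, by simp [hb]⟩).symm

/-- A morphism that passes the test sends square-free words to square-free words. -/
theorem sf [Nontrivial α] {w : List α} (hw : SF w) : SF (w.flatMap h) := by
  intro A X C e
  by_contra hX
  obtain ⟨w1, a, w2, P, Q, rfl, ha, hQ, -, e2⟩ := cut h w A _ e (by simp [hX])
  replace hw : SF (a :: w2) := hw.sub ⟨w1, [], by simp⟩
  rcases append_eq_append_iff.1 e2 with ⟨D, rfl, e4⟩ | ⟨Y, e3, e4⟩
  · rcases append_eq_append_iff.1 e4 with ⟨E, rfl, -⟩ | ⟨E, e5, e6⟩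
    · exact hX (T.one a P X E ha)
    · by_cases hE : E = []
      · subst hE
        exact hX (T.one a P X [] (by simp [ha, e5]))
      obtain ⟨b, w3, rfl, f2⟩ := head hE e6.symm
      have hab : a ≠ b := SF.ne (u := []) hw
      rcases append_eq_append_iff.1 f2 with ⟨F, f3, -⟩ | ⟨F, rfl, -⟩
      · exact hX (T.two hab P X F (by rw [ha, f3]; nth_rewrite 3 [e5]; simp))
      · exact hab (T.inf b a ⟨P ++ D, F ++ D, by simp [ha, e5]⟩).symm
  · obtain ⟨u, b, w3, B, B', rfl, hb, hB', rfl, e5⟩ := cut h w2 Y _ e4 (by simp [hX])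
    rw [e3, append_assoc, append_assoc] at e5
    rcases append_eq_append_iff.1 e5 with ⟨D, rfl, e6⟩ | ⟨D, rfl, e6⟩
    · by_cases hD : D = []
      · subst hD
        exact T.even hw ha hQ (by simpa using hb) (by simpa using e6)
      · exact T.long hw ha hQ hb hD e6
    · by_cases hD : D = []
      · subst hD
        exact T.even hw ha hQ (by simpa using hb) (by simpa using e6.symm)
      · exact T.short hw ha hB' hb hD e6.symm

end Test

end Pool.Agent.Work.MP_7cb3ca_co.Cu
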