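import Pool.Agent.Work.MP_7cb3ca_co.Cu.Circ

/-! There is no circular square-free word on three letters of length `5, 7, 9, 10, 14` or `17`. -/

namespace Pool.Agent.Work.MP_7cb3ca_co.Cu

open List

/-- No word made by writing `k` letters before `t` passes the test for circular words. -/
noncomputable def dead (n k : ℕ) : List ℕ → Bool :=
  Nat.rec (motive := fun _ => List ℕ → Bool)
    (fun w => !decide (∀ s < n, force (w.rotate s) (fun r => noSq r r.tail 1) = true))
    (fun _ ih t => [0, 1, 2].all fun a => !noSq (a :: t) t 1 || ih (a :: t)) k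

lemma dead_spec (n : ℕ) : ∀ (k : ℕ) (u t : List ℕ), u.length = k → (∀ x ∈ u, x < 3) →
    dead n k t = true → (u ++ t).length = n → n ≠ 0 → ¬ CSF (u ++ t) := by
  intro k
  induction k with
  | zero =>
    intro u t h1 _ h3 h4 h5 hw
    obtain rfl := length_eq_zero_iff.1 h1
    subst h4
    have := (csf_iff (by rintro e; exact h5 (by rw [e]; rfl))).1 hw
    simp only [dead, Nat.rec_zero, Bool.not_eq_true', decide_eq_false_iff_not] at h3
    exact h3 this
  | succ k ih =>
    intro u t h1 h2 h3 h4 h5 hw
    obtain rfl | ⟨u, a, rfl⟩ := eq_nil_or_concat u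
    · simp at h1
    have h6 : a ∈ [0, 1, 2] := by have := h2 a (by simp); simp; omega
    have h7 : (!noSq (a :: t) t 1 || dead n k (a :: t)) = true := all_eq_true.1 h3 a h6
    have h8 : SF (a :: t) := SF.sub (by simpa using hw 0) ⟨u, [], by simp⟩
    have h9 := (sfb_iff _).2 h8
    rw [sfb_cons, Bool.and_eq_true] at h9
    rw [h9.1] at h7
    exact ih u (a :: t) (by simpa using h1) (fun x hx => h2 x (by simp [hx])) h7
      (by simpa using h4) h5 (by simpa using hw)

lemma all_dead : ∀ n ∈ [5, 7, 9, 10, 14, 17], dead n n [] = true := by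
  decide +kernel

theorem not_csf {w : List ℕ} (hS : w.length ∈ [5, 7, 9, 10, 14, 17]) (h : ∀ x ∈ w, x < 3) :
    ¬ CSF w := by
  simpa using dead_spec _ _ w [] rfl h (all_dead _ hS) (by simp) (by rintro e; simp [e] at hS)

end Pool.Agent.Work.MP_7cb3ca_co.Cu
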