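import Pool.Agent.Work.MP_7cb3ca_co.Cu.Circ

/-! Circular square-free words on three letters exist for all lengths other than
`5, 7, 9, 10, 14, 17` (Currie). -/

namespace Pool.Agent.Work.MP_7cb3ca_co.Cu

open List

/-- The images of the fourth letter. -/
def gw (j : ℕ) : List ℕ := [
    [0,1,0,2,1,0,1,2,1,0,2,0,1,0,2,1,2,0,1,2,1,0,1,2],
    [0,1,0,2,1,0,1,2,1,0,2,0,1,2,0,2,1,2,0,1,2,1,0,1,2],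
    [0,1,0,2,1,0,1,2,1,0,2,0,1,2,0,2,1,0,2,0,1,2,1,0,1,2],
    [0,1,0,2,1,0,1,2,1,0,2,0,1,0,2,1,2,0,1,0,2,0,1,2,1,0,1,2,0,2,1,2,0,1,2,1,0,1,2],
    [0,1,0,2,1,0,1,2,1,0,2,0,1,0,2,1,2,0,1,0,2,0,1,2,1,0,1,2],
    [0,1,0,2,1,0,1,2,1,0,2,0,1,0,2,1,2,0,2,1,0,2,0,1,2,1,0,1,2],
    [0,1,0,2,1,0,1,2,1,0,2,0,1,2,1,0,1,2],
    [0,1,0,2,1,0,1,2,1,0,2,1,2,0,1,0,2,0,1,2,0,2,1,2,0,1,2,1,0,1,2],
    [0,1,0,2,1,0,1,2,1,0,2,1,2,0,1,2,1,0,1,2],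
    [0,1,0,2,1,0,1,2,1,0,2,0,1,2,0,2,1,0,1,2,0,1,0,2,1,2,0,1,2,1,0,1,2],
    [0,1,0,2,1,0,1,2,1,0,2,0,1,2,0,2,1,0,2,0,1,2,1,0,2,1,2,0,1,2,1,0,1,2],
    [0,1,0,2,1,0,1,2,1,0,2,0,1,0,2,1,2,0,1,0,2,0,1,2,0,2,1,2,0,1,2,1,0,1,2]].getD j []

/-- Twelve morphisms from four letters to three letters. -/
def hm (j : ℕ) (a : Fin 4) : List ℕ :=
  if a = 0 then [0,1,0,2,0,1,2,0,2,1,0,2] else if a = 1 then [0,1,0,2,1,0,1,2,0,2,1,2]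
  else if a = 2 then [0,1,0,2,1,2,0,2,1,0,1,2] else gw j

/-- Short circular words. -/
def sc (n : ℕ) : List ℕ := [
    [], [0], [0,1], [0,1,2], [0,1,0,2], [], [0,1,0,2,1,2], [], [0,1,0,2,1,0,1,2], [], [],
    [0,1,0,2,0,1,2,0,2,1,2], [0,1,0,2,0,1,2,1,0,2,1,2], [0,1,0,2,0,1,2,0,2,1,0,1,2], [],
    [0,1,0,2,0,1,2,1,0,1,2,0,2,1,2], [0,1,0,2,0,1,2,1,0,2,0,1,0,2,1,2], [],
    [0,1,0,2,0,1,2,0,2,1,0,1,2,1,0,2,1,2], [0,1,0,2,0,1,2,0,2,1,0,2,0,1,2,1,0,1,2],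
    [0,1,0,2,0,1,2,0,2,1,0,2,0,1,0,2,1,0,1,2], [0,1,0,2,1,0,1,2,0,2,1,0,2,0,1,2,1,0,2,1,2],
    [0,1,0,2,0,1,2,0,2,1,0,1,2,1,0,2,0,1,0,2,1,2], [0,1,0,2,0,1,2,0,2,1,0,1,2,1,0,2,0,1,2,0,2,1,2],
    [0,1,0,2,0,1,2,0,2,1,0,1,2,1,0,2,0,1,0,2,1,0,1,2],
    [0,1,0,2,0,1,2,0,2,1,0,1,2,0,1,0,2,0,1,2,1,0,2,1,2],
    [0,1,0,2,0,1,2,0,2,1,0,1,2,0,1,0,2,1,0,1,2,1,0,2,1,2],
    [0,1,0,2,0,1,2,0,2,1,0,1,2,0,1,0,2,1,2,0,1,2,1,0,2,1,2],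
    [0,1,0,2,0,1,2,0,2,1,0,1,2,0,1,0,2,0,1,2,1,0,1,2,0,2,1,2],
    [0,1,0,2,0,1,2,0,2,1,0,1,2,0,1,0,2,0,1,2,1,0,2,0,1,0,2,1,2],
    [0,1,0,2,0,1,2,0,2,1,0,1,2,0,1,0,2,1,0,1,2,1,0,2,0,1,0,2,1,2],
    [0,1,0,2,0,1,2,0,2,1,0,1,2,0,1,0,2,1,0,1,2,1,0,2,0,1,2,0,2,1,2],
    [0,1,0,2,0,1,2,0,2,1,0,1,2,0,1,0,2,0,1,2,0,2,1,2,0,1,2,1,0,2,1,2],
    [0,1,0,2,0,1,2,0,2,1,0,1,2,0,1,0,2,1,0,1,2,0,2,1,0,2,0,1,2,0,2,1,2],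
    [0,1,0,2,0,1,2,0,2,1,0,1,2,0,1,0,2,1,0,1,2,0,2,1,0,2,0,1,0,2,1,0,1,2],
    [0,1,0,2,0,1,2,0,2,1,0,1,2,0,1,0,2,0,1,2,0,2,1,2,0,1,2,1,0,1,2,0,2,1,2],
    [0,1,0,2,0,1,2,0,2,1,0,1,2,0,1,0,2,0,1,2,0,2,1,2,0,1,0,2,0,1,2,1,0,2,1,2],
    [0,1,0,2,0,1,2,0,2,1,0,1,2,0,1,0,2,0,1,2,0,2,1,2,0,1,0,2,1,0,1,2,1,0,2,1,2],
    [0,1,0,2,0,1,2,0,2,1,0,1,2,0,1,0,2,0,1,2,1,0,1,2,0,1,0,2,1,2,0,1,2,1,0,2,1,2],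
    [0,1,0,2,0,1,2,0,2,1,0,1,2,0,1,0,2,0,1,2,0,2,1,2,0,1,0,2,0,1,2,1,0,1,2,0,2,1,2],
    [0,1,0,2,0,1,2,0,2,1,0,1,2,0,1,0,2,0,1,2,0,2,1,2,0,1,0,2,0,1,2,1,0,2,0,1,0,2,1,2],
    [0,1,0,2,0,1,2,0,2,1,0,1,2,0,1,0,2,0,1,2,0,2,1,2,0,1,0,2,1,0,1,2,1,0,2,0,1,0,2,1,2],
    [0,1,0,2,0,1,2,0,2,1,0,1,2,0,1,0,2,0,1,2,0,2,1,2,0,1,0,2,1,0,1,2,1,0,2,0,1,2,0,2,1,2],
    [0,1,0,2,0,1,2,0,2,1,0,1,2,0,1,0,2,0,1,2,0,2,1,2,0,1,0,2,1,0,1,2,0,2,1,0,2,0,1,0,2,1,2],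
    [0,1,0,2,0,1,2,0,2,1,0,1,2,0,1,0,2,0,1,2,0,2,1,2,0,1,0,2,1,0,1,2,0,1,0,2,0,1,2,1,0,2,1,2],
    [0,1,0,2,0,1,2,0,2,1,0,1,2,0,1,0,2,0,1,2,0,2,1,2,0,1,0,2,1,0,1,2,0,2,1,0,2,0,1,2,1,0,2,1,2],
    [0,1,0,2,0,1,2,0,2,1,0,1,2,0,1,0,2,0,1,2,0,2,1,2,0,1,0,2,0,1,2,1,0,1,2,0,2,1,0,1,2,1,0,2,1,2],
    [0,1,0,2,0,1,2,0,2,1,0,1,2,0,1,0,2,0,1,2,0,2,1,2,0,1,0,2,0,1,2,1,0,1,2,0,1,0,2,1,0,1,2,0,2,1,2],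
    [0,1,0,2,0,1,2,0,2,1,0,1,2,0,1,0,2,0,1,2,0,2,1,2,0,1,0,2,0,1,2,1,0,1,2,0,1,0,2,1,0,1,2,1,0,2,1,2],
    [0,1,0,2,0,1,2,0,2,1,0,1,2,0,1,0,2,0,1,2,0,2,1,2,0,1,0,2,0,1,2,1,0,1,2,0,1,0,2,1,2,0,1,2,1,0,2,1,2],
    [0,1,0,2,0,1,2,0,2,1,0,1,2,0,1,0,2,0,1,2,0,2,1,2,0,1,0,2,0,1,2,1,0,1,2,0,2,1,0,1,2,1,0,2,0,1,0,2,1,2]].getD n []

lemma hm_three : ∀ j < 12, ∀ a b c : Fin 4, a ≠ b → b ≠ c →
    force (hm j a ++ (hm j b ++ hm j c)) sfb = true := by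
  decide +kernel

lemma hm_rest : ∀ j < 12, ((gw j).length % 12 = j ∧ (gw j).length ≤ 39) ∧ ∀ a : Fin 4,
    (hm j a ≠ [] ∧ ∀ x ∈ hm j a, x < 3) ∧ ∀ b, hm j a <:+: hm j b → a = b := by
  decide +kernel

lemma sc_ok : ∀ n < 51, (n < 3 ∨ n ∈ [5, 7, 9, 10, 14, 17]) ∨ (sc n).length = n ∧
    (∀ x ∈ sc n, x < 3) ∧ ∀ s < n, force ((sc n).rotate s) (fun r => noSq r r.tail 1) = true := by
  decide +kernel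

lemma hm_test {j : ℕ} (hj : j < 12) : Test (hm j) :=
  ⟨fun a => ((hm_rest j hj).2 a).1.1, fun a => ((hm_rest j hj).2 a).2,
    fun a b c h1 h2 => (sfb_iff _).1 (force_eq _ sfb ▸ hm_three j hj a b c h1 h2)⟩

lemma hm_lt {j : ℕ} (hj : j < 12) (w : List (Fin 4)) : ∀ x ∈ w.flatMap (hm j), x < 3 := by
  simp only [mem_flatMap, forall_exists_index, and_imp]
  exact fun x a _ => ((hm_rest j hj).2 a).1.2 x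

lemma hm_length (j : ℕ) {w : List (Fin 4)} (h : 3 ∉ w) :
    (w.flatMap (hm j)).length = 12 * w.length := by
  induction w with
  | nil => rfl
  | cons a w ih =>
    simp only [mem_cons, not_or] at h
    have : (hm j a).length = 12 := by
      unfold hm
      split_ifs with h1 h2 h3
      iterate 3 rfl
      exact absurd (by omega) h.1
    rw [flatMap_cons, length_append, ih h.2, this, length_cons]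
    ring

lemma thue (m : ℕ) : ∃ u : List (Fin 4), u.length = m ∧ 3 ∉ u ∧ SF u := by
  have : ∀ k, ∃ u : List (Fin 4), k + 1 ≤ u.length ∧ 3 ∉ u ∧ SF u := by
    intro k
    induction k with
    | zero => exact ⟨[0], le_rfl, by decide, SF.of_map Fin.val ((sfb_iff _).1 rfl)⟩
    | succ k ih =>
      obtain ⟨u, h1, h2, h3⟩ := ih
      have h4 := hm_lt (j := 0) (by omega) u
      refine ⟨(u.flatMap (hm 0)).map (Fin.ofNat 4), by rw [length_map, hm_length 0 h2]; omega,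
        fun h => ?_, SF.of_map Fin.val ?_⟩
      · obtain ⟨x, h5, h6⟩ := mem_map.1 h
        have := h4 x h5
        have := congrArg Fin.val h6
        simp only [Fin.ofNat] at this
        omega
      · rw [map_map, map_congr_left (f := Fin.val ∘ Fin.ofNat 4) (g := id) fun x hx =>
          Nat.mod_eq_of_lt (show x < 4 by have := h4 x hx; omega), map_id]
        exact (hm_test (by omega)).sf h3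
  obtain ⟨u, h1, h2, h3⟩ := this m
  exact ⟨u.take m, by simp; omega, fun h => h2 (mem_of_mem_take h),
    h3.sub (take_prefix m u).isInfix⟩

theorem exists_csf {n : ℕ} (hn : 3 ≤ n) (hS : n ∉ [5, 7, 9, 10, 14, 17]) :
    ∃ w : List ℕ, w.length = n ∧ (∀ x ∈ w, x < 3) ∧ CSF w := by
  by_cases h : n < 51
  · obtain ⟨h3, h1, h2⟩ := (sc_ok n h).resolve_left (by rintro (h | h); exacts [by omega, hS h])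
    exact ⟨_, h3, h1, (csf_iff (by rintro e; rw [e] at h3; simp at h3; omega)).2 (h3.symm ▸ h2)⟩
  have hj : n % 12 < 12 := Nat.mod_lt _ (by omega)
  obtain ⟨h1, h2⟩ := (hm_rest _ hj).1
  obtain ⟨u, h3, h4, h5⟩ := thue ((n - (gw (n % 12)).length) / 12)
  refine ⟨(u ++ [3]).flatMap (hm (n % 12)), ?_, hm_lt hj _, (hm_test hj).csf
    (h5.circ (by rintro rfl; simp at h3; omega) h4)⟩
  have h6 : (hm (n % 12) 3).length = (gw (n % 12)).length := rfl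
  rw [flatMap_append, length_append, hm_length _ h4, h3, flatMap_singleton, h6]
  omega

end Pool.Agent.Work.MP_7cb3ca_co.Cu
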